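import Mathlib
import Pool.Agent.V1116.HellyTorus

/-!
# The support bound for invariant monomial lattices of diagonalizable groups
-/

open Pool.Agent.V1116.HellyCore Pool.Agent.V1116.HellyTorus

namespace Pool.Agent.Results.MP_7bc96b_al.SupportBound

section General

variable {X : Type} [AddCommGroup X] {n : ℕ}

/-- `B χ J`: the exponent vectors of invariant monomials with support in `J`. -/
def B (χ : Fin n → X) (J : Finset (Fin n)) : Set (Fin n → ℕ) :=
  {m | ∑ j, m j • χ j = 0 ∧ ∀ j, m j ≠ 0 → j ∈ J}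

/-- The subgroup of `ℤⁿ` generated by a set of exponent vectors. -/
def ZSpan (S : Set (Fin n → ℕ)) : AddSubgroup (Fin n → ℤ) :=
  AddSubgroup.closure ((fun (m : Fin n → ℕ) j => (m j : ℤ)) '' S)

/-- For all `I`, the group `ℤ B_I` is generated by the `B_J` with `J ⊆ I`, `|J| ≤ t`. -/
def TauProp (χ : Fin n → X) (t : ℕ) : Prop :=
  ∀ I : Finset (Fin n), ZSpan (B χ I) = ZSpan {m | ∃ J ⊆ I, J.card ≤ t ∧ m ∈ B χ J}

/-- The number `τ(B)`. -/
noncomputable def tau (χ : Fin n → X) : ℕ := sInf {t | TauProp χ t}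

/-- The integral relations with support in `I`. -/
def R (χ : Fin n → X) (I : Finset (Fin n)) : Set (Fin n → ℤ) :=
  {z | ∑ j, z j • χ j = 0 ∧ ∀ j, z j ≠ 0 → j ∈ I}

/-- A nonnegative relation is in the span of the `B χ J`. -/
theorem mem_cast {χ : Fin n → X} {J : Finset (Fin n)} {z : Fin n → ℤ} (hz : z ∈ R χ J)
    (hz0 : ∀ j, 0 ≤ z j) : ∃ m ∈ B χ J, (fun j => (m j : ℤ)) = z := by
  refine ⟨fun j => (z j).toNat, ⟨?_, fun j hj => hz.2 j fun h => hj ?_⟩, ?_⟩
  · rw [← hz.1]
    refine Finset.sum_congr rfl fun j _ => ?_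
    rw [← natCast_zsmul, Int.toNat_of_nonneg (hz0 j)]
  · show (z j).toNat = 0
    rw [h]; rfl
  · funext j
    exact Int.toNat_of_nonneg (hz0 j)

theorem cast_mem {χ : Fin n → X} {J : Finset (Fin n)} {m : Fin n → ℕ} (hm : m ∈ B χ J) :
    (fun j => (m j : ℤ)) ∈ R χ J := by
  refine ⟨?_, fun j hj => hm.2 j fun h => hj (by
    show (m j : ℤ) = 0
    rw [h]; rfl)⟩
  rw [← hm.1]
  refine Finset.sum_congr rfl fun j _ => ?_
  rw [natCast_zsmul]

theorem sum_ext {M : Type} [AddCommGroup M] (J : Finset (Fin n)) (a : J → ℤ) (y : Fin n → ℤ)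
    (h1 : ∀ j : J, y j = a j) (h2 : ∀ j, j ∉ J → y j = 0) (F : Fin n → M) :
    ∑ j, y j • F j = ∑ j : J, a j • F j := by
  rw [← Finset.sum_subset (Finset.subset_univ J) (fun j _ hj => by rw [h2 j hj, zero_smul])]
  rw [← Finset.sum_coe_sort]
  exact Finset.sum_congr rfl fun j _ => by rw [h1]

theorem R_zero (χ : Fin n → X) (J : Finset (Fin n)) : (0 : Fin n → ℤ) ∈ R χ J :=
  ⟨by simp, fun j h => absurd rfl h⟩

theorem R_comb {χ : Fin n → X} {J : Finset (Fin n)} {z w : Fin n → ℤ} (hz : z ∈ R χ J)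
    (hw : w ∈ R χ J) (a b : ℤ) : (fun j => a * z j + b * w j) ∈ R χ J := by
  refine ⟨?_, fun j hj => ?_⟩
  · have h1 : ∑ j, (a * z j + b * w j) • χ j = a • ∑ j, z j • χ j + b • ∑ j, w j • χ j := by
      rw [Finset.smul_sum, Finset.smul_sum, ← Finset.sum_add_distrib]
      refine Finset.sum_congr rfl fun j _ => ?_
      rw [add_smul, mul_smul, mul_smul]
    show ∑ j, (a * z j + b * w j) • χ j = 0
    rw [h1, hz.1, hw.1, smul_zero, smul_zero, add_zero]
  · by_contra hcon
    have h1 : z j = 0 := by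
      by_contra h; exact hcon (hz.2 j h)
    have h2 : w j = 0 := by
      by_contra h; exact hcon (hw.2 j h)
    apply hj
    show a * z j + b * w j = 0
    rw [h1, h2]; ring

/-- (S) The relations with support in `I` are generated by those with support of size at most
`m + 1`. -/
theorem small_generate {m : ℕ} (e : Fin m → X) (he : AddSubgroup.closure (Set.range e) = ⊤)
    (χ : Fin n → X) (I : Finset (Fin n)) (z : Fin n → ℤ) (hz : z ∈ R χ I) :
    z ∈ AddSubgroup.closure {z | ∃ J ⊆ I, J.card ≤ m + 1 ∧ z ∈ R χ J} := by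
  classical
  by_contra hcon
  set R' := AddSubgroup.closure {z | ∃ J ⊆ I, J.card ≤ m + 1 ∧ z ∈ R χ J} with hR'
  have hne : (QuotientAddGroup.mk' R' z : (Fin n → ℤ) ⧸ R') ≠ 0 := by
    intro h
    exact hcon ((QuotientAddGroup.eq_zero_iff z).mp h)
  obtain ⟨p, hp, θ, hθ⟩ := exists_hom hne
  let f : (Fin n → ℤ) →+ Dp p := θ.comp (QuotientAddGroup.mk' R')
  have hf0 : ∀ y ∈ R', f y = 0 := by
    intro y hy
    show θ (QuotientAddGroup.mk' R' y) = 0
    rw [show QuotientAddGroup.mk' R' y = 0 from (QuotientAddGroup.eq_zero_iff y).mpr hy, map_zero]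
  have hfsum : ∀ y : Fin n → ℤ, f y = ∑ j, y j • f (Pi.single j 1) := by
    intro y
    have h1 : y = ∑ j, y j • (Pi.single j (1 : ℤ) : Fin n → ℤ) := by
      funext k
      rw [Finset.sum_apply, Finset.sum_eq_single k]
      · simp
      · intro j _ hj
        simp [Pi.single_eq_of_ne (Ne.symm hj)]
      · intro h; exact absurd (Finset.mem_univ _) h
    conv_lhs => rw [h1]
    rw [map_sum]
    exact Finset.sum_congr rfl fun j _ => map_zsmul _ _ _
  -- local solutions
  have hloc : ∀ J : Finset (Fin n), J ⊆ I → J.card ≤ m + 1 →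
      ∃ x : X →+ Dp p, ∀ j ∈ J, x (χ j) = f (Pi.single j 1) := by
    intro J hJI hJ
    let π : (J → ℤ) →+ X :=
      { toFun := fun a => ∑ j : J, a j • χ j
        map_zero' := Finset.sum_eq_zero fun j _ => zero_smul ℤ _
        map_add' := fun a b => by
          rw [← Finset.sum_add_distrib]
          exact Finset.sum_congr rfl fun j _ => add_smul _ _ _ }
    let g : (J → ℤ) →+ Dp p :=
      { toFun := fun a => ∑ j : J, a j • f (Pi.single (j : Fin n) 1)
        map_zero' := Finset.sum_eq_zero fun j _ => zero_smul ℤ _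
        map_add' := fun a b => by
          rw [← Finset.sum_add_distrib]
          exact Finset.sum_congr rfl fun j _ => add_smul _ _ _ }
    obtain ⟨x, hx⟩ := exists_factor baer_Dp π g (by
      intro a ha
      let y : Fin n → ℤ := fun j => if h : j ∈ J then a ⟨j, h⟩ else 0
      have hy1 : ∀ j : J, y j = a j := fun j => dif_pos j.2
      have hy2 : ∀ j, j ∉ J → y j = 0 := fun j h => dif_neg h
      have h1 : y ∈ R χ J := by
        refine ⟨?_, fun j hj => by
          by_contra h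
          exact hj (hy2 j h)⟩
        have h2 : ∑ j : J, a j • χ j = 0 := ha
        rw [← h2]
        exact sum_ext J a y hy1 hy2 χ
      have h3 : f y = 0 := hf0 y (AddSubgroup.subset_closure ⟨J, hJI, hJ, h1⟩)
      rw [hfsum] at h3
      show ∑ j : J, a j • f (Pi.single (j : Fin n) 1) = 0
      rw [← h3]
      exact (sum_ext J a y hy1 hy2 fun j => f (Pi.single j 1)).symm)
    refine ⟨x, fun j hj => ?_⟩
    have h1 := hx (Pi.single ⟨j, hj⟩ 1)
    have h2 : π (Pi.single ⟨j, hj⟩ 1) = χ j := by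
      show ∑ k : J, (Pi.single (⟨j, hj⟩ : J) (1 : ℤ) : J → ℤ) k • χ k = χ j
      rw [Finset.sum_eq_single (⟨j, hj⟩ : J)]
      · rw [Pi.single_eq_same, one_smul]
      · intro k _ hk
        rw [Pi.single_eq_of_ne hk, zero_smul]
      · intro h; exact absurd (Finset.mem_univ _) h
    have h3 : g (Pi.single ⟨j, hj⟩ 1) = f (Pi.single j 1) := by
      show ∑ k : J, (Pi.single (⟨j, hj⟩ : J) (1 : ℤ) : J → ℤ) k • f (Pi.single (k : Fin n) 1) = _
      rw [Finset.sum_eq_single (⟨j, hj⟩ : J)]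
      · rw [Pi.single_eq_same, one_smul]
      · intro k _ hk
        rw [Pi.single_eq_of_ne hk, zero_smul]
      · intro h; exact absurd (Finset.mem_univ _) h
    rw [h2, h3] at h1
    exact h1
  -- the family of cyclic subgroups
  have hone : ∀ i : I, ∃ x : X →+ Dp p, x (χ i) = f (Pi.single (i : Fin n) 1) := by
    intro i
    obtain ⟨x, hx⟩ := hloc {(i : Fin n)} (Finset.singleton_subset_iff.mpr i.2) (by
      rw [Finset.card_singleton]; omega)
    exact ⟨x, hx i (Finset.mem_singleton_self _)⟩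
  choose x1 hx1 using hone
  let Λ : I → AddSubgroup X := fun i => AddSubgroup.zmultiples (χ i)
  let c : ∀ i, Λ i →+ Dp p := fun i => (x1 i).comp (Λ i).subtype
  have hcomp := compat_all (baer_Dp (p := p)) e he Λ c (by
    intro J hJ
    obtain ⟨x, hx⟩ := hloc (J.map (Function.Embedding.subtype _)) (by
      intro j hj
      rw [Finset.mem_map] at hj
      obtain ⟨i, _, rfl⟩ := hj
      exact i.2) (by rw [Finset.card_map]; exact hJ)
    refine ⟨x, fun i hi z => ?_⟩
    have h1 := hx i (Finset.mem_map.mpr ⟨i, hi, rfl⟩)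
    obtain ⟨z, hz⟩ := z
    obtain ⟨k, rfl⟩ := AddSubgroup.mem_zmultiples_iff.mp hz
    show x (k • χ i) = x1 i (k • χ i)
    rw [map_zsmul, map_zsmul, h1, hx1]) Finset.univ
  obtain ⟨x, hx⟩ := hcomp
  apply hθ
  show f z = 0
  have hxj : ∀ i : I, x (χ i) = f (Pi.single (i : Fin n) 1) := by
    intro i
    have h1 := hx i (Finset.mem_univ _) ⟨χ i, AddSubgroup.mem_zmultiples _⟩
    rw [← hx1]
    exact h1
  rw [hfsum]
  have h1 : x (∑ j, z j • χ j) = ∑ j, z j • f (Pi.single j 1) := by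
    rw [map_sum]
    refine Finset.sum_congr rfl fun j _ => ?_
    rw [map_zsmul]
    by_cases hj : j ∈ I
    · rw [hxj ⟨j, hj⟩]
    · have : z j = 0 := by
        by_contra h; exact hj (hz.2 j h)
      rw [this, zero_smul, zero_smul]
  rw [← h1, hz.1, map_zero]

/-- (W) A nonnegative relation positive on a given set, with small support. -/
theorem exists_small [Module.Finite ℤ X] (χ : Fin n → X) (I₀ J : Finset (Fin n))
    (b : Fin n → ℤ) (hb : b ∈ R χ I₀) (hb0 : ∀ j, 0 ≤ b j)
    (hbJ : ∀ j ∈ J, 0 < b j) :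
    ∃ (w : Fin n → ℤ) (J' : Finset (Fin n)), J' ⊆ I₀ ∧ J ⊆ J' ∧
      J'.card ≤ J.card + Module.finrank ℤ X ∧ w ∈ R χ J' ∧ (∀ j, 0 ≤ w j) ∧
      ∀ j ∈ J, 0 < w j := by
  classical
  let P : ℕ → Prop := fun k => ∃ w : Fin n → ℤ, w ∈ R χ I₀ ∧ (∀ j, 0 ≤ w j) ∧
    (∀ j ∈ J, 0 < w j) ∧ (Finset.univ.filter fun j => w j ≠ 0).card = k
  have hP : ∃ k, P k := ⟨_, b, hb, hb0, hbJ, rfl⟩
  obtain ⟨w, hw, hw0, hwJ, hwk⟩ := Nat.find_spec hP
  set S := Finset.univ.filter fun j => w j ≠ 0 with hS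
  have hSI : S ⊆ I₀ := fun j hj => hw.2 j (Finset.mem_filter.mp hj).2
  have hJS : J ⊆ S := fun j hj => Finset.mem_filter.mpr ⟨Finset.mem_univ _, (hwJ j hj).ne'⟩
  refine ⟨w, S, hSI, hJS, ?_, ⟨hw.1, fun j hj => Finset.mem_filter.mpr ⟨Finset.mem_univ _, hj⟩⟩,
    hw0, hwJ⟩
  by_contra hcon
  push Not at hcon
  have hcard : Module.finrank ℤ X < (S \ J).card := by
    have := Finset.card_sdiff_add_card_eq_card hJS
    omega
  have hdep : ¬ LinearIndependent ℤ (fun j : ↥(S \ J) => χ j) := by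
    intro h
    have := h.fintype_card_le_finrank
    rw [Fintype.card_coe] at this
    omega
  rw [Fintype.linearIndependent_iff] at hdep
  push Not at hdep
  obtain ⟨a, ha, i₀, hi₀⟩ := hdep
  -- a relation with a positive coefficient
  obtain ⟨z, hz1, hz2, k, hk⟩ : ∃ z : Fin n → ℤ, ∑ j, z j • χ j = 0 ∧
      (∀ j, z j ≠ 0 → j ∈ S \ J) ∧ ∃ k, 0 < z k := by
    let y : Fin n → ℤ := fun j => if h : j ∈ S \ J then a ⟨j, h⟩ else 0
    have hy1 : ∀ j : ↥(S \ J), y j = a j := fun j => dif_pos j.2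
    have hy2 : ∀ j, j ∉ S \ J → y j = 0 := fun j h => dif_neg h
    have hy3 : ∑ j, y j • χ j = 0 := by
      rw [← ha]
      exact sum_ext (S \ J) a y hy1 hy2 χ
    have hy4 : ∀ j, y j ≠ 0 → j ∈ S \ J := fun j hj => by
      by_contra h
      exact hj (hy2 j h)
    rcases lt_or_gt_of_ne hi₀ with h | h
    · refine ⟨fun j => - y j, ?_, fun j hj => hy4 j fun h => hj (by
        show - y j = 0
        rw [h, neg_zero]), i₀, ?_⟩
      · simp only [neg_smul, Finset.sum_neg_distrib, hy3, neg_zero]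
      · show 0 < - y i₀
        rw [hy1]; omega
    · exact ⟨y, hy3, hy4, i₀, by rw [hy1]; exact h⟩
  -- minimize the quotient
  obtain ⟨j₀, hj₀, hmin⟩ := Finset.exists_min_image (Finset.univ.filter fun j => 0 < z j)
    (fun j => (w j : ℚ) / z j) ⟨k, Finset.mem_filter.mpr ⟨Finset.mem_univ _, hk⟩⟩
  have hzj₀ : 0 < z j₀ := (Finset.mem_filter.mp hj₀).2
  let w' : Fin n → ℤ := fun j => z j₀ * w j + (- w j₀) * z j
  have hzR : z ∈ R χ I₀ := ⟨hz1, fun j hj => hSI (Finset.sdiff_subset (hz2 j hj))⟩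
  have hw'R : w' ∈ R χ I₀ := R_comb hw hzR _ _
  have hw'0 : ∀ j, 0 ≤ w' j := by
    intro j
    show 0 ≤ z j₀ * w j + (- w j₀) * z j
    rcases le_or_gt (z j) 0 with h | h
    · have h1 := mul_nonneg hzj₀.le (hw0 j)
      have h2 := mul_nonneg (hw0 j₀) (neg_nonneg.mpr h)
      nlinarith
    · have h1 := hmin j (Finset.mem_filter.mpr ⟨Finset.mem_univ _, h⟩)
      have hq : (0 : ℚ) < z j := by exact_mod_cast h
      have hq0 : (0 : ℚ) < z j₀ := by exact_mod_cast hzj₀
      rw [div_le_div_iff₀ hq0 hq] at h1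
      have h2 : w j₀ * z j ≤ w j * z j₀ := by exact_mod_cast h1
      nlinarith
  have hw'J : ∀ j ∈ J, 0 < w' j := by
    intro j hj
    have h1 : z j = 0 := by
      by_contra h
      exact (Finset.mem_sdiff.mp (hz2 j h)).2 hj
    show 0 < z j₀ * w j + (- w j₀) * z j
    rw [h1, mul_zero, add_zero]
    exact mul_pos hzj₀ (hwJ j hj)
  have hlt : (Finset.univ.filter fun j => w' j ≠ 0).card < Nat.find hP := by
    rw [← hwk]
    apply Finset.card_lt_card
    rw [Finset.ssubset_iff_of_subset]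
    · refine ⟨j₀, Finset.sdiff_subset (hz2 j₀ hzj₀.ne'), ?_⟩
      rw [Finset.mem_filter]
      push Not
      intro _
      show z j₀ * w j₀ + (- w j₀) * z j₀ = 0
      ring
    · intro j hj
      have h1 : w' j ≠ 0 := (Finset.mem_filter.mp hj).2
      by_contra hjS
      apply h1
      have h2 : w j = 0 := by
        by_contra h
        exact hjS (Finset.mem_filter.mpr ⟨Finset.mem_univ _, h⟩)
      have h3 : z j = 0 := by
        by_contra h
        exact hjS (Finset.sdiff_subset (hz2 j h))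
      show z j₀ * w j + (- w j₀) * z j = 0
      rw [h2, h3]; ring
  exact Nat.find_min hP hlt ⟨w', hw'R, hw'0, hw'J, rfl⟩

theorem tauProp_general [Module.Finite ℤ X] {m : ℕ} (e : Fin m → X)
    (he : AddSubgroup.closure (Set.range e) = ⊤) (χ : Fin n → X) :
    TauProp χ (1 + Module.finrank ℤ X + m) := by
  classical
  intro I
  apply le_antisymm
  · -- the full support
    let I₀ : Finset (Fin n) := I.filter fun j => ∃ b ∈ B χ I, b j ≠ 0
    have hex : ∀ J : Finset (Fin n), J ⊆ I₀ → ∃ b : Fin n → ℤ, b ∈ R χ I₀ ∧ (∀ j, 0 ≤ b j) ∧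
        ∀ j ∈ J, 0 < b j := by
      intro J
      induction J using Finset.induction_on with
      | empty => exact fun _ => ⟨0, R_zero _ _, fun j => le_rfl, fun j hj => absurd hj (Finset.notMem_empty j)⟩
      | insert a J ha ih =>
        intro hJ
        obtain ⟨b, hb, hb0, hbJ⟩ := ih ((Finset.subset_insert a J).trans hJ)
        obtain ⟨c, hc, hca⟩ := (Finset.mem_filter.mp (hJ (Finset.mem_insert_self a J))).2
        have hc' := cast_mem hc
        have hc'' : (fun j => (c j : ℤ)) ∈ R χ I₀ := by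
          refine ⟨hc'.1, fun j hj => Finset.mem_filter.mpr ⟨hc'.2 j hj, c, hc, ?_⟩⟩
          intro h
          apply hj
          show (c j : ℤ) = 0
          rw [h]; rfl
        refine ⟨_, R_comb hb hc'' 1 1, fun j => ?_, fun j hj => ?_⟩
        · have := hb0 j
          show 0 ≤ 1 * b j + 1 * (c j : ℤ)
          omega
        · show 0 < 1 * b j + 1 * (c j : ℤ)
          rcases Finset.mem_insert.mp hj with rfl | h
          · have := hb0 j
            omega
          · have := hbJ j h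
            omega
    have hI₀ : I₀ ⊆ I := Finset.filter_subset _ _
    unfold ZSpan
    rw [AddSubgroup.closure_le]
    rintro _ ⟨b, hb, rfl⟩
    have hbR : (fun j => (b j : ℤ)) ∈ R χ I₀ := by
      have hb' := cast_mem hb
      refine ⟨hb'.1, fun j hj => Finset.mem_filter.mpr ⟨hb'.2 j hj, b, hb, ?_⟩⟩
      intro h
      apply hj
      show (b j : ℤ) = 0
      rw [h]; rfl
    have h1 := small_generate e he χ I₀ _ hbR
    refine (AddSubgroup.closure_le _).mpr ?_ h1
    rintro z ⟨J, hJ, hJc, hz⟩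
    obtain ⟨b', hb', hb'0, hb'J⟩ := hex J hJ
    obtain ⟨w, J', hJ'I, hJJ', hJ'c, hw, hw0, hwJ⟩ := exists_small χ I₀ J b' hb' hb'0 hb'J
    have hzJ' : z ∈ R χ J' := ⟨hz.1, fun j hj => hJJ' (hz.2 j hj)⟩
    let N : ℤ := ∑ j, |z j|
    have hN : ∀ j, |z j| ≤ N := fun j =>
      Finset.single_le_sum (f := fun j => |z j|) (fun i _ => abs_nonneg _) (Finset.mem_univ j)
    have hN0 : 0 ≤ N := Finset.sum_nonneg fun i _ => abs_nonneg _
    have h2 : (fun j => 1 * z j + N * w j) ∈ R χ J' := R_comb hzJ' hw 1 N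
    have h3 : (fun j => 0 * z j + N * w j) ∈ R χ J' := R_comb hzJ' hw 0 N
    have h2' : ∀ j, 0 ≤ 1 * z j + N * w j := by
      intro j
      by_cases hj : z j = 0
      · rw [hj]
        have := mul_nonneg hN0 (hw0 j)
        omega
      · have h4 := hwJ j (hz.2 j hj)
        have h5 := hN j
        have h6 := neg_abs_le (z j)
        nlinarith
    have h3' : ∀ j, 0 ≤ 0 * z j + N * w j := by
      intro j
      have := mul_nonneg hN0 (hw0 j)
      omega
    have hcard : J'.card ≤ 1 + Module.finrank ℤ X + m := by omega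
    obtain ⟨m₁, hm₁, hm₁'⟩ := mem_cast h2 h2'
    obtain ⟨m₂, hm₂, hm₂'⟩ := mem_cast h3 h3'
    have h4 : z = (fun j => (m₁ j : ℤ)) - (fun j => (m₂ j : ℤ)) := by
      rw [hm₁', hm₂']
      funext j
      show z j = (1 * z j + N * w j) - (0 * z j + N * w j)
      ring
    rw [h4]
    exact AddSubgroup.sub_mem _
      (AddSubgroup.subset_closure ⟨m₁, ⟨J', hJ'I.trans hI₀, hcard, hm₁⟩, rfl⟩)
      (AddSubgroup.subset_closure ⟨m₂, ⟨J', hJ'I.trans hI₀, hcard, hm₂⟩, rfl⟩)
  · unfold ZSpan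
    apply AddSubgroup.closure_mono
    apply Set.image_mono
    rintro b ⟨J, hJ, _, hb⟩
    exact ⟨hb.1, fun j hj => hJ (hb.2 j hj)⟩

end General

/-- The dimension of a diagonalizable group: the rank of the free part of `X(G)`. -/
noncomputable def dimG {K : Type} [Field K] {N : ℕ} (G : Subgroup (T K N)) : ℕ :=
  Module.finrank ℤ (Additive (charGroup G))

theorem closure_additive {X : Type} [CommGroup X] {m : ℕ} {e : Fin m → X}
    (he : Subgroup.closure (Set.range e) = ⊤) :
    AddSubgroup.closure (Set.range fun i => Additive.ofMul (e i)) = ⊤ := by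
  rw [eq_top_iff]
  intro χ _
  have h : Additive.toMul χ ∈ Subgroup.closure (Set.range e) := by rw [he]; trivial
  have key : ∀ ψ : X, ψ ∈ Subgroup.closure (Set.range e) →
      Additive.ofMul ψ ∈ AddSubgroup.closure (Set.range fun i => Additive.ofMul (e i)) := by
    intro ψ hψ
    induction hψ using Subgroup.closure_induction with
    | mem x hx =>
      obtain ⟨i, rfl⟩ := hx
      exact AddSubgroup.subset_closure ⟨i, rfl⟩
    | one => exact AddSubgroup.zero_mem _
    | mul x y _ _ hx hy => exact AddSubgroup.add_mem _ hx hy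
    | inv x _ hx => exact AddSubgroup.neg_mem _ hx
  exact key _ h

theorem finite_of_closure {X : Type} [AddCommGroup X] {m : ℕ} {e : Fin m → X}
    (he : AddSubgroup.closure (Set.range e) = ⊤) : Module.Finite ℤ X := by
  classical
  refine ⟨⟨Finset.univ.image e, ?_⟩⟩
  rw [Finset.coe_image, Finset.coe_univ, Set.image_univ, eq_top_iff]
  intro x _
  have h : x ∈ AddSubgroup.closure (Set.range e) := by rw [he]; trivial
  exact AddSubgroup.closure_le (K := (Submodule.span ℤ (Set.range e)).toAddSubgroup) |>.mpr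
    Submodule.subset_span h

/-- **Theorem.** Let `K` be an algebraically closed field, `G` a Zariski closed subgroup of
`(Kˣ)ᴺ` and `χ₁, …, χₙ ∈ X(G)`. Then `τ(B(χ₁, …, χₙ)) ≤ 1 + dim(G) + rk(X(G))`. -/
theorem result (K : Type) [Field K] [IsAlgClosed K] (N : ℕ) (G : Subgroup (T K N))
    (_hG : ZClosed (G : Set (T K N))) (n : ℕ) (χ : Fin n → Additive (charGroup G)) :
    (∃ e : Fin (rk (charGroup G)) → charGroup G, Subgroup.closure (Set.range e) = ⊤) ∧
      TauProp χ (1 + dimG G + rk (charGroup G)) ∧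
      tau χ ≤ 1 + dimG G + rk (charGroup G) := by
  obtain ⟨e, he⟩ := rk_spec G
  have he' := closure_additive he
  have := finite_of_closure he'
  have h : TauProp χ (1 + dimG G + rk (charGroup G)) := tauProp_general _ he' χ
  exact ⟨⟨e, he⟩, h, Nat.sInf_le h⟩

end Pool.Agent.Results.MP_7bc96b_al.SupportBound
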